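import Pool.Agent.J4.H80.IB.IAll
import Pool.Agent.J4.H80.IB.IFin

/-!
# An indestructible Blaschke product which is not a maximal Blaschke product

Q1 of MP_6cbd4a_an is answered in the negative: there is a locally univalent, non-injective Blaschke product `B` all of
whose compositions with automorphisms of the disc are Blaschke products, and which is not a maximal Blaschke product.

Construction (`Pool.Agent.J4.H80.IB`): `B' = exp q`, `q = lim q_k`, where `q_{k+1} = q_k + p_k`,
`p_k = -2 t (n z ^ K + z ^ (K - N) P(z)) / (1 - t z ^ K)`, `K` about `e ^ n / n`, `t = 1 - n ^ (-4)` and `n` very large. On the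
unit circle `p_k = (n + L) (1 - (Poisson kernel of `t z ^ K`) - i ...)`, so that the boundary curve of the new function is
the old one with small spirals, of the radius comparable with the distance of the old curve to the unit circle (`L` is a
trigonometric polynomial which prescribes this radius). The energy (the mean of `|f_k| ^ 2` on the unit circle) grows at every
step by a fixed multiple of the square of the mean distance to the circle, so it tends to `1`; the Frostman
means of `log |(1 - conj w f_k) / (f_k - w)|` are bounded by a constant multiple of the mean distance to the circle by means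
of a covering lemma. So `B` has no singular inner factor and no outer factor, and the same is true for its Frostman shifts.
A maximal Blaschke product without critical points is an automorphism of the disc, but `|B'(0)| = 1 / 2`, `B(0) = 0`.
-/

set_option autoImplicit false

namespace Pool.Agent.Results.MP_6cbd4a_an.IndestructibleNotMaximal

open Metric
open scoped ComplexConjugate
open Pool.Agent.Helper34.Dg (IsBlaschke)
open Pool.Agent.N279.MBP (IsMaxBlaschke)

/-- **Indestructible Blaschke products need not be maximal.** There is a Blaschke product `B` on the unit disc such that `T ∘ B`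
is a Blaschke product for every automorphism `T(w) = c (w - a) / (1 - conj a w)` of the disc and which is not a maximal
Blaschke product; moreover the derivative of `B` has no zero and `B` is not injective. -/
theorem result : ∃ B : ℂ → ℂ, DifferentiableOn ℂ B (ball 0 1) ∧ IsBlaschke B ∧
    (∀ c a : ℂ, ‖c‖ = 1 → ‖a‖ < 1 →
      IsBlaschke (fun z => c * ((B z - a) / (1 - conj a * B z)))) ∧
    ¬ IsMaxBlaschke B ∧
    (∀ z ∈ ball (0 : ℂ) 1, deriv B z ≠ 0) ∧ ¬ Set.InjOn B (ball 0 1) := by
  obtain ⟨B, h1, h2, h3, h4, h5, h6⟩ := Pool.Agent.J4.H80.IB.fin_holds Pool.Agent.J4.H80.IB.lim_all
  exact ⟨B, h1, h5, h4, h6, h2, h3⟩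

end Pool.Agent.Results.MP_6cbd4a_an.IndestructibleNotMaximal
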